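import Pool.Agent.Lib.MP_2eed13_lc.LCA.Base

/-!
# ROW: the block map computes the middle block after `B` steps of the coded rule
-/

set_option autoImplicit false

namespace Pool.Agent.Lib.MP_2eed13_lc.LCA.H35

open Finset

/-- The number with digits `f`. -/
def num (q : ℕ) (f : ℕ → ℕ) (n : ℕ) : ℕ := ∑ k ∈ range n, f k * q ^ k

theorem num_lt (q : ℕ) (f : ℕ → ℕ) (hf : ∀ k, f k < q) (n : ℕ) : num q f n < q ^ n := by
  induction n with
  | zero => simp [num]
  | succ n ih =>
    have h : num q f (n + 1) = num q f n + f n * q ^ n := by simp [num, sum_range_succ]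
    have h1 : f n + 1 ≤ q := hf n
    have h2 : (f n + 1) * q ^ n ≤ q * q ^ n := Nat.mul_le_mul_right _ h1
    rw [h, pow_succ']
    nlinarith

theorem num_add (q : ℕ) (f : ℕ → ℕ) (a m : ℕ) :
    num q f (a + m) = num q f a + q ^ a * num q (fun k => f (a + k)) m := by
  simp only [num, sum_range_add, mul_sum]
  congr 1
  refine sum_congr rfl fun k _ => ?_
  rw [pow_add]
  ring

theorem num_div (q : ℕ) (f : ℕ → ℕ) (hf : ∀ k, f k < q) (a m : ℕ) :
    num q f (a + m) / q ^ a = num q (fun k => f (a + k)) m := by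
  have hq : 0 < q ^ a := pow_pos (lt_of_le_of_lt (Nat.zero_le _) (hf 0)) _
  rw [num_add, Nat.add_mul_div_left _ _ hq, Nat.div_eq_of_lt (num_lt q f hf a), zero_add]

theorem num_mod (q : ℕ) (f : ℕ → ℕ) (hf : ∀ k, f k < q) (a m : ℕ) :
    num q f (a + m) % q ^ a = num q f a := by
  rw [num_add, Nat.add_mul_mod_self_left, Nat.mod_eq_of_lt (num_lt q f hf a)]

theorem dig_num (q : ℕ) (f : ℕ → ℕ) (hf : ∀ k, f k < q) (w i : ℕ) :
    dig q (num q f w) i = if i < w then f i else 0 := by
  unfold dig
  split_ifs with h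
  · obtain ⟨m, rfl⟩ : ∃ m, w = i + (1 + m) := ⟨w - i - 1, by omega⟩
    rw [num_div q f hf]
    have := num_mod q (fun k => f (i + k)) (fun k => hf _) 1 m
    rw [pow_one] at this
    rw [this]
    simp [num]
  · have hq : 1 ≤ q := lt_of_le_of_lt (Nat.zero_le _) (hf 0)
    have h1 : num q f w < q ^ i :=
      (num_lt q f hf w).trans_le (Nat.pow_le_pow_right hq (by omega))
    rw [Nat.div_eq_of_lt h1, Nat.zero_mod]

theorem rule_lt (q T l c r : ℕ) (hq : 0 < q) : rule q T l c r < q := Nat.mod_lt _ hq

/-- The digits after one step. -/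
def nxt (q T w : ℕ) (f : ℕ → ℕ) (i : ℕ) : ℕ :=
  rule q T (if i = 0 then 0 else if i - 1 < w then f (i - 1) else 0) (if i < w then f i else 0)
    (if i + 1 < w then f (i + 1) else 0)

theorem rowStep_num (C q T w : ℕ) (f : ℕ → ℕ) (hf : ∀ k, f k < q) (hC : q ^ w ≤ C) :
    rowStep C q T w (num q f w) = num q (nxt q T w f) w := by
  have hq : 1 ≤ q := lt_of_le_of_lt (Nat.zero_le _) (hf 0)
  unfold rowStep
  change _ = ∑ i ∈ range w, nxt q T w f i * q ^ i
  refine sum_congr rfl fun i hi => ?_
  have hiw : i < w := mem_range.1 hi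
  have hp : powc q i C = q ^ i := by
    unfold powc
    exact min_eq_left ((Nat.pow_le_pow_right hq hiw.le).trans hC)
  rw [hp, dig_num q f hf, dig_num q f hf, dig_num q f hf]
  rfl

/-- ROW -/
theorem row : RowStatement := by
  intro β T B C hβ hB hC cfg hcfg hstep t z
  set q : ℕ := 2 ^ β with hq
  have hq0 : 0 < q := by positivity
  have hC' : q ^ (3 * B) ≤ C := by
    rw [hq, ← pow_mul]
    refine le_trans (le_of_eq ?_) hC
    congr 1
    ring
  have key : ∀ m : ℕ, m ≤ B → ∃ f : ℕ → ℕ, (∀ k, f k < q) ∧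
      (∀ k, m ≤ k → k < 3 * B - m → f k = cfg (t + m) (z + k)) ∧
      (rowStep C q T (3 * B))^[m] (∑ k ∈ range (3 * B), cfg t (z + k) * q ^ k) =
        num q f (3 * B) := by
    intro m
    induction m with
    | zero =>
      intro _
      exact ⟨fun k => cfg t (z + k), fun k => hcfg _ _, fun k _ _ => rfl, rfl⟩
    | succ m ih =>
      intro hm
      obtain ⟨f, hf, hval, hrow⟩ := ih (by omega)
      refine ⟨nxt q T (3 * B) f, fun k => rule_lt _ _ _ _ _ hq0, ?_, ?_⟩
      · intro k hk1 hk2
        have e1 : f (k - 1) = cfg (t + m) (z + k - 1) := by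
          rw [hval (k - 1) (by omega) (by omega)]
          congr 1
          push_cast [show 1 ≤ k by omega]
          ring
        have e2 : f k = cfg (t + m) (z + k) := hval k (by omega) (by omega)
        have e3 : f (k + 1) = cfg (t + m) (z + k + 1) := by
          rw [hval (k + 1) (by omega) (by omega)]
          congr 1
          push_cast
          ring
        have h0 : k ≠ 0 := by omega
        have h1 : k - 1 < 3 * B := by omega
        have h2 : k < 3 * B := by omega
        have h3 : k + 1 < 3 * B := by omega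
        have := hstep (t + m) (z + k)
        simp only [nxt, if_neg h0, if_pos h1, if_pos h2, if_pos h3, e1, e2, e3]
        rw [← this]
        rfl
      · rw [Function.iterate_succ_apply', hrow, rowStep_num C q T (3 * B) f hf hC']
  obtain ⟨f, hf, hval, hrow⟩ := key B le_rfl
  have hp : powc q B C = q ^ B := by
    unfold powc
    exact min_eq_left ((Nat.pow_le_pow_right hq0 (by omega)).trans hC')
  unfold blockMap
  rw [hrow, hp]
  have h3 : 3 * B = B + (B + B) := by ring
  rw [h3, num_div q f hf, num_mod q _ (fun k => hf _) B B]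
  unfold num
  refine sum_congr rfl fun k hk => ?_
  have hk' := mem_range.1 hk
  change f (B + k) * q ^ k = _
  rw [hval (B + k) (by omega) (by omega)]
  congr 2
  push_cast
  ring

end Pool.Agent.Lib.MP_2eed13_lc.LCA.H35
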